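import Pool.Agent.LQZ.Stmt

/-!
# Zeta functions of square-subdivision regularised LQG spheres continue to `0`

Full positive answer to Q1 of `MP_e66c58_pr`. The definitions are in `Pool/Agent/LQZ/Defs.lean`
and `Pool/Agent/LQZ/SpecDefs.lean`.

The proof: for every metric `g = e^{2φ}|dz|²` on the sphere whose exponent `φ` is a combination of
`σ₀` and of logarithmic potentials of squares (so `φ` is `C^{1,1/2}`), the resolvent trace
`∑ (λ_j + z)^{-2}` has the expansion `A/z + B/z² + O(z^{-9/4})` as `z → ∞`. It is computed from a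
parametrix built out of the Bessel kernel in the Moebius coordinate `f_y` which is normal to first
order at `y`. The Mellin transform then gives the continuation of `ζ_g` to `Re s > -1/4`, `s ≠ 1`.
-/

open MeasureTheory

namespace Pool.Agent.Results.MP_e66c58_pr.ZetaContinuation

/-- Let `g₀ = e^{2σ₀}|dz|²` be a smooth metric on the sphere with `σ₀ = 0` near the unit square,
`ε > 0`, `c < 25`, `Q > 0` with `c = 25 - 6 Q²`, and let `X` be a Gaussian free field on the sphere
with metric `g₀`, normalised by `∫ h K₀ dVol_{g₀} = 0`. Almost surely on the event `#𝒫^ε < ∞`, the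
set `𝒫^ε` is a partition of the unit square, `h^ε` exists and is unique up to null sets, the metric
`g = e^{2(h^ε/Q + C)} g₀` has discrete spectrum `0 = λ₀ < λ₁ ≤ λ₂ ≤ ⋯`, and its spectral zeta function
`∑ λ_j^{-s}` extends analytically from `Re s > 1` to a domain containing `0`. -/
theorem result {σ₀ : ℂ → ℝ} (hσ : LQZ.BaseMetric σ₀) {c Q ε : ℝ} (_hc : c < 25) (hQ : 0 < Q)
    (_hcQ : c = 25 - 6 * Q ^ 2) (hε : 0 < ε)
    {W : Type*} [MeasurableSpace W] {P : Measure W} [IsProbabilityMeasure P]
    {X : (ℂ → ℝ) → W → ℝ} (hX : LQZ.IsGFF σ₀ X P) :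
    ∀ᵐ o ∂P, (LQZ.Peps Q ε (LQZ.fieldAvg X o)).Finite →
      LQZ.Answer σ₀ Q ε (LQZ.fieldAvg X o) :=
  LQZ.main_gff_answer hσ hQ hε hX

end Pool.Agent.Results.MP_e66c58_pr.ZetaContinuation
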